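import Mathlib

set_option autoImplicit false

/-!
Finite combinatorial part of the counterexample to fair iterated hyperplane partitions
(`d = 2`, `r = 6`): twelve points of the plane with integer labels of total zero.
-/

namespace Pool.Agent.H573R3.Fair

/-- first coordinates -/
def px : Fin 12 → ℤ := ![214, 31, 32, 274, 105, 44, -53, -11, -67, -129, -102, -16]
/-- second coordinates -/
def py : Fin 12 → ℤ := ![-117, 37, 49, 224, -235, 38, 60, 46, -19, 25, -31, 12]
/-- labels -/
def kp : Fin 12 → ℤ := ![-1, -1, -1, -1, -1, 5, -1, 7, 5, -1, -1, -9]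

/-- determinant of the differences `p a - p b` and `p c - p d` -/
def dt (a b c d : Fin 12) : ℤ := (px a - px b) * (py c - py d) - (py a - py b) * (px c - px d)

/-- a triple of ordered pairs whose difference vectors positively span the plane -/
def vb (i1 j1 i2 j2 i3 j3 : Fin 12) : Bool :=
  decide (0 < dt i1 j1 i2 j2) && decide (0 < dt i2 j2 i3 j3) && decide (0 < dt i3 j3 i1 j1)

/-- the list of certificates used -/
def KL : List ((Fin 12 × Fin 12) × (Fin 12 × Fin 12) × (Fin 12 × Fin 12)) :=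
  [((1, 5), (1, 7), (1, 11)), ((11, 0), (11, 2), (11, 8)), ((11, 1), (11, 10), (11, 5)),
   ((11, 3), (11, 6), (11, 4)), ((0, 7), (6, 11), (6, 7)), ((2, 7), (2, 11), (9, 7)),
   ((11, 0), (11, 5), (11, 9)), ((5, 1), (11, 8), (11, 1)), ((3, 7), (10, 11), (10, 7)),
   ((7, 2), (7, 3), (7, 9)), ((5, 0), (5, 2), (5, 7)), ((8, 0), (8, 5), (8, 10)),
   ((0, 2), (0, 4), (11, 2)), ((2, 0), (2, 3), (2, 8)), ((7, 0), (7, 1), (7, 6)),
   ((0, 2), (0, 8), (9, 8)), ((4, 0), (4, 8), (6, 8)), ((5, 1), (5, 4), (5, 3)),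
   ((5, 0), (5, 2), (5, 1)), ((0, 3), (2, 11), (2, 3)), ((0, 5), (11, 8), (11, 5)),
   ((8, 1), (8, 9), (8, 4)), ((1, 0), (11, 6), (1, 6)), ((5, 0), (5, 2), (5, 4)),
   ((0, 5), (2, 5), (4, 5)), ((2, 9), (2, 11), (8, 11)), ((3, 2), (8, 2), (3, 7)),
   ((0, 11), (5, 11), (9, 11)), ((1, 2), (1, 11), (10, 11)), ((2, 4), (11, 7), (2, 7)),
   ((4, 2), (7, 11), (7, 2))]

theorem KL_valid :
    (KL.all fun κ => vb κ.1.1 κ.1.2 κ.2.1.1 κ.2.1.2 κ.2.2.1 κ.2.2.2) = true := by
  decide +kernel

theorem tri_valid : ∀ x y z : Fin 12, x ≠ y → y ≠ z → x ≠ z →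
    vb x y y z z x = true ∨ vb y x x z z y = true := by
  decide +kernel

/-- the set coded by `n` is excluded by some certificate -/
def dead (n : ℕ) : Bool :=
  KL.any fun κ => n.testBit κ.1.1 && n.testBit κ.2.1.1 && n.testBit κ.2.2.1 &&
    !n.testBit κ.1.2 && !n.testBit κ.2.1.2 && !n.testBit κ.2.2.2

/-- number of elements -/
def cnt (n : ℕ) : ℤ :=
  (bif n.testBit 0 then 1 else 0) + (bif n.testBit 1 then 1 else 0) +
  (bif n.testBit 2 then 1 else 0) + (bif n.testBit 3 then 1 else 0) +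
  (bif n.testBit 4 then 1 else 0) + (bif n.testBit 5 then 1 else 0) +
  (bif n.testBit 6 then 1 else 0) + (bif n.testBit 7 then 1 else 0) +
  (bif n.testBit 8 then 1 else 0) + (bif n.testBit 9 then 1 else 0) +
  (bif n.testBit 10 then 1 else 0) + (bif n.testBit 11 then 1 else 0)

/-- sum of labels -/
def wt (n : ℕ) : ℤ :=
  (bif n.testBit 0 then -1 else 0) + (bif n.testBit 1 then -1 else 0) +
  (bif n.testBit 2 then -1 else 0) + (bif n.testBit 3 then -1 else 0) +
  (bif n.testBit 4 then -1 else 0) + (bif n.testBit 5 then 5 else 0) +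
  (bif n.testBit 6 then -1 else 0) + (bif n.testBit 7 then 7 else 0) +
  (bif n.testBit 8 then 5 else 0) + (bif n.testBit 9 then -1 else 0) +
  (bif n.testBit 10 then -1 else 0) + (bif n.testBit 11 then -9 else 0)

/-- flipping two bits -/
def flip2 (n x y : ℕ) : ℕ := n ^^^ (2 ^ x ^^^ 2 ^ y)

/-- the finite check for one code -/
def chk (n : ℕ) : Bool :=
  dead n ||
  ((decide (cnt n ≠ 2) || decide (wt n < 0)) &&
   (decide (cnt n ≠ 4) || decide (0 < wt n)) &&
   (decide (cnt n ≠ 6) || decide (wt n ≠ 0) || decide (n = 63) || decide (n = 4032)) &&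
   (decide (cnt n ≠ 6) || decide (wt n ≤ 0) ||
      (List.finRange 12).all fun x => (List.finRange 12).all fun y =>
        !n.testBit x || n.testBit y || decide (0 ≤ wt (flip2 n x y)) || dead (flip2 n x y)))

set_option maxRecDepth 100000 in
theorem chk_all : ∀ n : Fin 4096, chk n = true := by
  decide +kernel

/-- certificates inside the first six points -/
def KL6 : List ((Fin 12 × Fin 12) × (Fin 12 × Fin 12) × (Fin 12 × Fin 12)) :=
  [((5, 1), (5, 4), (5, 3)), ((5, 0), (5, 2), (5, 1)), ((5, 0), (5, 2), (5, 4)),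
   ((0, 5), (2, 5), (4, 5))]

theorem KL6_valid :
    (KL6.all fun κ => vb κ.1.1 κ.1.2 κ.2.1.1 κ.2.1.2 κ.2.2.1 κ.2.2.2) = true := by
  decide +kernel

theorem KL6_mem : (KL6.all fun κ => decide (κ.1.1 < 6) && decide (κ.1.2 < 6) &&
    decide (κ.2.1.1 < 6) && decide (κ.2.1.2 < 6) && decide (κ.2.2.1 < 6) &&
    decide (κ.2.2.2 < 6)) = true := by
  decide +kernel

/-- the set coded by `n` is excluded by some certificate inside the first six points -/
def dead6 (n : ℕ) : Bool :=
  KL6.any fun κ => n.testBit κ.1.1 && n.testBit κ.2.1.1 && n.testBit κ.2.2.1 &&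
    !n.testBit κ.1.2 && !n.testBit κ.2.1.2 && !n.testBit κ.2.2.2

/-- the finite check for subsets of the first six points -/
def chk6 (n : ℕ) : Bool :=
  dead6 n || (decide (cnt n ≠ 2) || decide (wt n < 0))

theorem chk6_all : ∀ n : Fin 64, chk6 n = true := by
  decide +kernel

end Pool.Agent.H573R3.Fair
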