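import Pool.Agent.H573R3.FairReal

set_option autoImplicit false

namespace Pool.Agent.H573R3.Fair

open Finset

theorem tb (f : Fin 12 → Bool) (i : Fin 12) : (Nat.ofBits f).testBit i = f i :=
  Nat.testBit_ofBits_lt f i.val i.isLt

theorem not_dead {t : Fin 12 → ℝ} (h : Legal t) (f : Fin 12 → Bool)
    (hf : ∀ i, (f i = true → 0 < t i) ∧ (f i = false → t i < 1)) :
    dead (Nat.ofBits f) = false := by
  by_contra hcon
  rw [Bool.not_eq_false] at hcon
  unfold dead at hcon
  rw [List.any_eq_true] at hcon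
  obtain ⟨κ, hκ, hh⟩ := hcon
  have hv := KL_valid
  rw [List.all_eq_true] at hv
  have hv' := hv κ hκ
  simp only [tb, Bool.and_eq_true, Bool.not_eq_true'] at hh
  exact h.cert _ _ _ _ _ _ hv' ⟨(hf _).1 hh.1.1.1.1.1, (hf _).1 hh.1.1.1.1.2,
    (hf _).1 hh.1.1.1.2, (hf _).2 hh.1.1.2, (hf _).2 hh.1.2, (hf _).2 hh.2⟩

theorem not_dead6 {t : Fin 12 → ℝ} (h : Legal t) (f : Fin 12 → Bool)
    (hf : ∀ i, i < 6 → (f i = true → 0 < t i) ∧ (f i = false → t i < 1)) :
    dead6 (Nat.ofBits f) = false := by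
  by_contra hcon
  rw [Bool.not_eq_false] at hcon
  unfold dead6 at hcon
  rw [List.any_eq_true] at hcon
  obtain ⟨κ, hκ, hh⟩ := hcon
  have hv := KL6_valid
  rw [List.all_eq_true] at hv
  have hv' := hv κ hκ
  have hm := KL6_mem
  rw [List.all_eq_true] at hm
  have hm' := hm κ hκ
  simp only [Bool.and_eq_true, decide_eq_true_eq] at hm'
  simp only [tb, Bool.and_eq_true, Bool.not_eq_true'] at hh
  exact h.cert _ _ _ _ _ _ hv' ⟨(hf _ hm'.1.1.1.1.1).1 hh.1.1.1.1.1,
    (hf _ hm'.1.1.1.2).1 hh.1.1.1.1.2,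
    (hf _ hm'.1.2).1 hh.1.1.1.2, (hf _ hm'.1.1.1.1.2).2 hh.1.1.2,
    (hf _ hm'.1.1.2).2 hh.1.2, (hf _ hm'.2).2 hh.2⟩

theorem chk_ofBits (f : Fin 12 → Bool) : chk (Nat.ofBits f) = true :=
  chk_all ⟨Nat.ofBits f, by simpa using Nat.ofBits_lt_two_pow f⟩

theorem split_sum {t : Fin 12 → ℝ} {f g : Fin 12 → Bool} {a b : ℝ} (M : Finset (Fin 12))
    (hrep : ∀ i ∈ M, t i = a * ind (f i) + b * ind (g i)) :
    ∑ i ∈ M, (kp i : ℝ) * t i =
      a * ∑ i ∈ M, (kp i : ℝ) * ind (f i) + b * ∑ i ∈ M, (kp i : ℝ) * ind (g i) := by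
  rw [Finset.mul_sum, Finset.mul_sum, ← Finset.sum_add_distrib]
  refine Finset.sum_congr rfl ?_
  intro i hi
  rw [hrep i hi]; ring

theorem D1 {t : Fin 12 → ℝ} (h : Legal t) (hs : ∑ i, t i = 2) : ∑ i, (kp i : ℝ) * t i < 0 := by
  obtain ⟨f, g, a, b, ha, hb, hab, -, hrep, hf, hg, hfs, hgs, -⟩ :=
    decomp h univ 2 (by rw [hs]; norm_num)
  have key : ∀ f : Fin 12 → Bool, (∀ i ∈ (univ : Finset (Fin 12)),
      (f i = true → 0 < t i) ∧ (f i = false → t i < 1)) → ∑ i, ind (f i) = ((2 : ℤ) : ℝ) →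
      ∑ i, (kp i : ℝ) * ind (f i) < 0 := by
    intro f hf hfs
    have hd := not_dead h f (fun i => hf i (mem_univ i))
    have hc := chk_ofBits f
    unfold chk at hc
    rw [hd] at hc
    rw [← cnt_ofBits] at hfs
    have hfs' : cnt (Nat.ofBits f) = 2 := by exact_mod_cast hfs
    simp only [Bool.false_or, Bool.and_eq_true] at hc
    have h1 := hc.1.1.1
    rw [hfs'] at h1
    simp at h1
    rw [← wt_ofBits]
    exact_mod_cast h1
  rw [split_sum univ hrep]
  have e1 := key f hf hfs
  have e2 := key g hg hgs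
  have := mul_neg_of_pos_of_neg ha e1
  have := mul_neg_of_pos_of_neg hb e2
  linarith

theorem D2 {t : Fin 12 → ℝ} (h : Legal t) (hs : ∑ i, t i = 4) : 0 < ∑ i, (kp i : ℝ) * t i := by
  obtain ⟨f, g, a, b, ha, hb, hab, -, hrep, hf, hg, hfs, hgs, -⟩ :=
    decomp h univ 4 (by rw [hs]; norm_num)
  have key : ∀ f : Fin 12 → Bool, (∀ i ∈ (univ : Finset (Fin 12)),
      (f i = true → 0 < t i) ∧ (f i = false → t i < 1)) → ∑ i, ind (f i) = ((4 : ℤ) : ℝ) →
      0 < ∑ i, (kp i : ℝ) * ind (f i) := by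
    intro f hf hfs
    have hd := not_dead h f (fun i => hf i (mem_univ i))
    have hc := chk_ofBits f
    unfold chk at hc
    rw [hd] at hc
    rw [← cnt_ofBits] at hfs
    have hfs' : cnt (Nat.ofBits f) = 4 := by exact_mod_cast hfs
    simp only [Bool.false_or, Bool.and_eq_true] at hc
    have h1 := hc.1.1.2
    rw [hfs'] at h1
    simp at h1
    rw [← wt_ofBits]
    exact_mod_cast h1
  rw [split_sum univ hrep]
  have e1 := key f hf hfs
  have e2 := key g hg hgs
  have := mul_pos ha e1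
  have := mul_pos hb e2
  linarith

theorem flip2_ofBits (f g : Fin 12 → Bool) (x y : Fin 12) (hxy : x ≠ y) (hfx : f x = true)
    (hfy : f y = false) (hgx : g x = false) (hgy : g y = true)
    (hfg : ∀ i, i ≠ x → i ≠ y → f i = g i) :
    flip2 (Nat.ofBits f) x y = Nat.ofBits g := by
  apply Nat.eq_of_testBit_eq
  intro i
  unfold flip2
  rw [Nat.testBit_xor, Nat.testBit_xor, Nat.testBit_two_pow, Nat.testBit_two_pow]
  by_cases hi : i < 12
  · rw [Nat.testBit_ofBits_lt f i hi, Nat.testBit_ofBits_lt g i hi]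
    by_cases hix : (⟨i, hi⟩ : Fin 12) = x
    · have h1 : x.val = i := by rw [← hix]
      have h2 : y.val ≠ i := fun e => hxy (Fin.ext (by rw [h1, e]))
      rw [hix, hfx, hgx]; simp [h1, h2]
    by_cases hiy : (⟨i, hi⟩ : Fin 12) = y
    · have h1 : y.val = i := by rw [← hiy]
      have h2 : x.val ≠ i := fun e => hxy (Fin.ext (by rw [h1, e]))
      rw [hiy, hfy, hgy]; simp [h1, h2]
    have h1 : x.val ≠ i := fun e => hix (Fin.ext e.symm)
    have h2 : y.val ≠ i := fun e => hiy (Fin.ext e.symm)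
    rw [hfg _ hix hiy]; simp [h1, h2]
  · push Not at hi
    rw [Nat.testBit_ofBits_ge f i hi, Nat.testBit_ofBits_ge g i hi]
    have h1 : x.val ≠ i := by have := x.isLt; omega
    have h2 : y.val ≠ i := by have := y.isLt; omega
    simp [h1, h2]

theorem swap_check (f g : Fin 12 → Bool) (x y : Fin 12) (hxy : x ≠ y) (hfx : f x = true)
    (hfy : f y = false) (hgx : g x = false) (hgy : g y = true)
    (hfg : ∀ i, i ≠ x → i ≠ y → f i = g i) (hdf : dead (Nat.ofBits f) = false)
    (hdg : dead (Nat.ofBits g) = false) (hcf : cnt (Nat.ofBits f) = 6)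
    (hwf : 0 < wt (Nat.ofBits f)) : 0 ≤ wt (Nat.ofBits g) := by
  have hc := chk_ofBits f
  unfold chk at hc
  rw [hdf] at hc
  simp only [Bool.false_or, Bool.and_eq_true] at hc
  have h1 := hc.2
  have e1 : decide (cnt (Nat.ofBits f) ≠ 6) = false := by simp [hcf]
  have e2 : decide (wt (Nat.ofBits f) ≤ 0) = false := by simp [hwf]
  rw [e1, e2] at h1
  simp only [Bool.false_or] at h1
  rw [List.all_eq_true] at h1
  have h2 := h1 x (List.mem_finRange x)
  rw [List.all_eq_true] at h2
  have h3 := h2 y (List.mem_finRange y)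
  rw [tb, tb, hfx, hfy, flip2_ofBits f g x y hxy hfx hfy hgx hgy hfg, hdg] at h3
  simpa using h3

theorem exists_other : ∀ x y : Fin 12, ∃ z : Fin 12, z ≠ x ∧ z ≠ y := by decide

theorem six_ne : ∀ z : Fin 12, decide (z < 6) = decide (6 ≤ z) → False := by decide

theorem D3 {t : Fin 12 → ℝ} (h : Legal t) (hs : ∑ i, t i = 6)
    (hk : ∑ i, (kp i : ℝ) * t i = 0) :
    (∀ i, t i = ind (decide (i < 6))) ∨ (∀ i, t i = ind (decide (6 ≤ i))) := by
  obtain ⟨f, g, a, b, ha, hb, hab, -, hrep, hf, hg, hfs, hgs, hfg⟩ :=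
    decomp h univ 6 (by rw [hs]; norm_num)
  have hdf := not_dead h f (fun i => hf i (mem_univ i))
  have hdg := not_dead h g (fun i => hg i (mem_univ i))
  rw [← cnt_ofBits] at hfs hgs
  have hcf : cnt (Nat.ofBits f) = 6 := by exact_mod_cast hfs
  have hcg : cnt (Nat.ofBits g) = 6 := by exact_mod_cast hgs
  rw [split_sum univ hrep, ← wt_ofBits, ← wt_ofBits] at hk
  -- zero weight means one of the two codes
  have key : ∀ f : Fin 12 → Bool, dead (Nat.ofBits f) = false → cnt (Nat.ofBits f) = 6 →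
      wt (Nat.ofBits f) = 0 →
      (∀ i, f i = decide (i < 6)) ∨ (∀ i, f i = decide (6 ≤ i)) := by
    intro f hd hcf hw
    have hc := chk_ofBits f
    unfold chk at hc
    rw [hd] at hc
    simp only [Bool.false_or, Bool.and_eq_true] at hc
    have h1 := hc.1.2
    have e1 : decide (cnt (Nat.ofBits f) ≠ 6) = false := by simp [hcf]
    have e2 : decide (wt (Nat.ofBits f) ≠ 0) = false := by simp [hw]
    rw [e1, e2] at h1
    simp only [Bool.false_or, Bool.or_eq_true, decide_eq_true_eq] at h1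
    rcases h1 with h1 | h1
    · left
      intro i
      rw [← tb f i, h1]
      revert i; decide
    · right
      intro i
      rw [← tb f i, h1]
      revert i; decide
  rcases lt_trichotomy (wt (Nat.ofBits f)) 0 with hw | hw | hw
  · -- negative: then g positive
    exfalso
    have hw' : ((wt (Nat.ofBits f) : ℤ) : ℝ) < 0 := by exact_mod_cast hw
    have hg' : (0:ℝ) < ((wt (Nat.ofBits g) : ℤ) : ℝ) := by
      by_contra hcon
      push Not at hcon
      have := mul_neg_of_pos_of_neg ha hw'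
      have := mul_nonpos_of_nonneg_of_nonpos hb.le hcon
      linarith
    have hg'' : 0 < wt (Nat.ofBits g) := by exact_mod_cast hg'
    rcases hfg with e | ⟨x, -, y, -, hxy, hfx, hfy, hgx, hgy, hrest⟩
    · rw [e] at hw; omega
    · have := swap_check g f y x hxy.symm hgy hgx hfy hfx
        (fun i h1 h2 => (hrest i h2 h1).symm) hdg hdf hcg hg''
      omega
  · -- zero
    have hwg : wt (Nat.ofBits g) = 0 := by
      have e : b * ((wt (Nat.ofBits g) : ℤ) : ℝ) = 0 := by
        rw [hw] at hk; simpa using hk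
      rcases mul_eq_zero.mp e with e | e
      · exact absurd e hb.ne'
      · exact_mod_cast e
    have hfg' : f = g := by
      rcases hfg with e | ⟨x, -, y, -, hxy, hfx, hfy, hgx, hgy, hrest⟩
      · exact e
      · exfalso
        rcases key f hdf hcf hw with h1 | h1 <;> rcases key g hdg hcg hwg with h2 | h2
        · rw [h1] at hfx; rw [h2] at hgx; rw [hfx] at hgx; exact Bool.noConfusion hgx
        · -- they differ at more than two places
          obtain ⟨z, hzx, hzy⟩ := exists_other x y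
          have e := hrest z hzx hzy
          rw [h1, h2] at e
          first | exact six_ne z e | exact six_ne z e.symm
        · obtain ⟨z, hzx, hzy⟩ := exists_other x y
          have e := hrest z hzx hzy
          rw [h1, h2] at e
          first | exact six_ne z e | exact six_ne z e.symm
        · rw [h1] at hfx; rw [h2] at hgx; rw [hfx] at hgx; exact Bool.noConfusion hgx
    subst hfg'
    have ht : ∀ i, t i = ind (f i) := by
      intro i
      rw [hrep i (mem_univ i), ← add_mul, hab, one_mul]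
    rcases key f hdf hcf hw with h1 | h1
    · left; intro i; rw [ht, h1]
    · right; intro i; rw [ht, h1]
  · exfalso
    have hw' : (0:ℝ) < ((wt (Nat.ofBits f) : ℤ) : ℝ) := by exact_mod_cast hw
    have hg' : ((wt (Nat.ofBits g) : ℤ) : ℝ) < 0 := by
      by_contra hcon
      push Not at hcon
      have := mul_pos ha hw'
      have := mul_nonneg hb.le hcon
      linarith
    have hg'' : wt (Nat.ofBits g) < 0 := by exact_mod_cast hg'
    rcases hfg with e | ⟨x, -, y, -, hxy, hfx, hfy, hgx, hgy, hrest⟩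
    · rw [e] at hw; omega
    · have := swap_check f g x y hxy hfx hfy hgx hgy hrest hdf hdg hcf hw
      omega

/-- the first six indices -/
def S0 : Finset (Fin 12) := univ.filter (fun i => i < 6)

theorem D4 {t : Fin 12 → ℝ} (h : Legal t) (hs : ∑ i ∈ S0, t i = 2) :
    ∑ i ∈ S0, (kp i : ℝ) * t i < 0 := by
  obtain ⟨f, g, a, b, ha, hb, hab, hout, hrep, hf, hg, hfs, hgs, -⟩ :=
    decomp h S0 2 (by rw [hs]; norm_num)
  have key : ∀ f : Fin 12 → Bool, (∀ i, i ∉ S0 → f i = false) → (∀ i ∈ S0,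
      (f i = true → 0 < t i) ∧ (f i = false → t i < 1)) → ∑ i ∈ S0, ind (f i) = ((2 : ℤ) : ℝ) →
      ∑ i ∈ S0, (kp i : ℝ) * ind (f i) < 0 := by
    intro f hout hf hfs
    have hd := not_dead6 h f (fun i hi => hf i (by simp [S0, hi]))
    have e1 : ∑ i ∈ S0, ind (f i) = ∑ i, ind (f i) := by
      refine Finset.sum_subset (subset_univ _) ?_
      intro i _ hi; rw [hout i hi]; rfl
    have e2 : ∑ i ∈ S0, (kp i : ℝ) * ind (f i) = ∑ i, (kp i : ℝ) * ind (f i) := by
      refine Finset.sum_subset (subset_univ _) ?_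
      intro i _ hi; rw [hout i hi]; simp
    rw [e1, ← cnt_ofBits] at hfs
    have hfs' : cnt (Nat.ofBits f) = 2 := by exact_mod_cast hfs
    have hlt : Nat.ofBits f < 64 := by
      have : Nat.ofBits f < 2 ^ 6 := by
        apply Nat.lt_pow_two_of_testBit
        intro i hi
        by_cases h12 : i < 12
        · rw [Nat.testBit_ofBits_lt f i h12]
          apply hout
          simp only [S0, mem_filter, mem_univ, true_and, not_lt]
          exact Fin.mk_le_mk.mpr hi
        · exact Nat.testBit_ofBits_ge f i (by omega)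
      simpa using this
    have hc := chk6_all ⟨Nat.ofBits f, hlt⟩
    unfold chk6 at hc
    rw [hd] at hc
    simp only [Bool.false_or] at hc
    have h1 := hc
    rw [hfs'] at h1
    simp at h1
    rw [e2, ← wt_ofBits]
    exact_mod_cast h1
  rw [split_sum S0 hrep]
  have e1 := key f (fun i hi => (hout i hi).1) hf hfs
  have e2 := key g (fun i hi => (hout i hi).2) hg hgs
  have := mul_neg_of_pos_of_neg ha e1
  have := mul_neg_of_pos_of_neg hb e2
  linarith

end Pool.Agent.H573R3.Fair
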