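import Pool.Agent.H573R3.FairD

set_option autoImplicit false

namespace Pool.Agent.H573R3.Fair

open Finset MeasureTheory

/-- the plane -/
abbrev E := EuclideanSpace ℝ (Fin 2)

/-- the twelve points -/
noncomputable def pt (i : Fin 12) : E := !₂[(px i : ℝ), (py i : ℝ)]

theorem inner_pt (v : E) (i j : Fin 12) :
    inner ℝ v (pt i - pt j) = v 0 * ((px i : ℝ) - px j) + v 1 * ((py i : ℝ) - py j) := by
  simp [pt, PiLp.inner_apply, Fin.sum_univ_two, mul_comm]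

theorem pos_of_vb {i1 j1 i2 j2 i3 j3 : Fin 12} (hv : vb i1 j1 i2 j2 i3 j3 = true) (v : E)
    (hv0 : v ≠ 0) : 0 < inner ℝ v (pt i1 - pt j1) ∨ 0 < inner ℝ v (pt i2 - pt j2) ∨
      0 < inner ℝ v (pt i3 - pt j3) := by
  by_contra hcon
  push Not at hcon
  obtain ⟨h1, h2, h3⟩ := hcon
  unfold vb at hv
  simp only [Bool.and_eq_true, decide_eq_true_eq] at hv
  obtain ⟨⟨hv1, hv2⟩, hv3⟩ := hv
  have cast : ∀ a b c d : Fin 12, 0 < dt a b c d →
      (0:ℝ) < ((px a : ℝ) - px b) * ((py c : ℝ) - py d) - ((py a : ℝ) - py b) * ((px c : ℝ) - px d) := by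
    intro a b c d h
    have : (0:ℝ) < ((dt a b c d : ℤ) : ℝ) := by exact_mod_cast h
    unfold dt at this
    push_cast at this
    exact this
  have c1 := cast _ _ _ _ hv1
  have c2 := cast _ _ _ _ hv2
  have c3 := cast _ _ _ _ hv3
  rw [inner_pt] at h1 h2 h3
  set X1 : ℝ := (px i1 : ℝ) - px j1
  set Y1 : ℝ := (py i1 : ℝ) - py j1
  set X2 : ℝ := (px i2 : ℝ) - px j2
  set Y2 : ℝ := (py i2 : ℝ) - py j2
  set X3 : ℝ := (px i3 : ℝ) - px j3
  set Y3 : ℝ := (py i3 : ℝ) - py j3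
  set a := v 0
  set b := v 1
  have hid : (X2 * Y3 - Y2 * X3) * (a * X1 + b * Y1) + (X3 * Y1 - Y3 * X1) * (a * X2 + b * Y2) +
      (X1 * Y2 - Y1 * X2) * (a * X3 + b * Y3) = 0 := by ring
  have n1 : (X2 * Y3 - Y2 * X3) * (a * X1 + b * Y1) ≤ 0 := mul_nonpos_of_nonneg_of_nonpos c2.le h1
  have n2 : (X3 * Y1 - Y3 * X1) * (a * X2 + b * Y2) ≤ 0 := mul_nonpos_of_nonneg_of_nonpos c3.le h2
  have n3 : (X1 * Y2 - Y1 * X2) * (a * X3 + b * Y3) ≤ 0 := mul_nonpos_of_nonneg_of_nonpos c1.le h3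
  have z1 : (X2 * Y3 - Y2 * X3) * (a * X1 + b * Y1) = 0 := by linarith
  have z2 : (X3 * Y1 - Y3 * X1) * (a * X2 + b * Y2) = 0 := by linarith
  have s1 : a * X1 + b * Y1 = 0 := (mul_eq_zero.mp z1).resolve_left c2.ne'
  have s2 : a * X2 + b * Y2 = 0 := (mul_eq_zero.mp z2).resolve_left c3.ne'
  have ha : a * (X1 * Y2 - Y1 * X2) = 0 := by
    have : a * (X1 * Y2 - Y1 * X2) = (a * X1 + b * Y1) * Y2 - (a * X2 + b * Y2) * Y1 := by ring
    rw [this, s1, s2]; ring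
  have hb : b * (X1 * Y2 - Y1 * X2) = 0 := by
    have : b * (X1 * Y2 - Y1 * X2) = (a * X2 + b * Y2) * X1 - (a * X1 + b * Y1) * X2 := by ring
    rw [this, s1, s2]; ring
  have ha0 : a = 0 := (mul_eq_zero.mp ha).resolve_right c1.ne'
  have hb0 : b = 0 := (mul_eq_zero.mp hb).resolve_right c1.ne'
  apply hv0
  ext i
  fin_cases i
  · exact ha0
  · exact hb0

theorem exists_m (i1 j1 i2 j2 i3 j3 : Fin 12) : ∃ m : ℝ, 0 < m ∧
    (vb i1 j1 i2 j2 i3 j3 = true → ∀ v : E, v ≠ 0 →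
      m * ‖v‖ ≤ inner ℝ v (pt i1 - pt j1) ∨ m * ‖v‖ ≤ inner ℝ v (pt i2 - pt j2) ∨
      m * ‖v‖ ≤ inner ℝ v (pt i3 - pt j3)) := by
  by_cases hv : vb i1 j1 i2 j2 i3 j3 = true
  swap
  · exact ⟨1, one_pos, fun h => absurd h hv⟩
  have hcomp : IsCompact (Metric.sphere (0 : E) 1) := isCompact_sphere _ _
  have hne : (Metric.sphere (0 : E) 1).Nonempty := NormedSpace.sphere_nonempty.mpr zero_le_one
  have hcont : ContinuousOn (fun v : E => max (max (inner ℝ v (pt i1 - pt j1))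
      (inner ℝ v (pt i2 - pt j2))) (inner ℝ v (pt i3 - pt j3))) (Metric.sphere (0 : E) 1) := by
    fun_prop
  obtain ⟨u, hu, hmin⟩ := hcomp.exists_isMinOn hne hcont
  have hu0 : u ≠ 0 := by
    intro e
    rw [e] at hu
    simp at hu
  refine ⟨max (max (inner ℝ u (pt i1 - pt j1)) (inner ℝ u (pt i2 - pt j2)))
    (inner ℝ u (pt i3 - pt j3)), ?_, ?_⟩
  · rcases pos_of_vb hv u hu0 with h | h | h
    · exact lt_max_of_lt_left (lt_max_of_lt_left h)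
    · exact lt_max_of_lt_left (lt_max_of_lt_right h)
    · exact lt_max_of_lt_right h
  · intro _ v hv0
    have hn : 0 < ‖v‖ := norm_pos_iff.mpr hv0
    have hw : (‖v‖⁻¹ • v) ∈ Metric.sphere (0 : E) 1 := by
      rw [mem_sphere_zero_iff_norm, norm_smul, norm_inv, norm_norm, inv_mul_cancel₀ hn.ne']
    have := hmin hw
    simp only [Set.mem_ofPred_eq, inner_smul_left, RCLike.conj_to_real] at this
    set m := max (max (inner ℝ u (pt i1 - pt j1)) (inner ℝ u (pt i2 - pt j2)))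
      (inner ℝ u (pt i3 - pt j3))
    have conv : ∀ d : E, m ≤ ‖v‖⁻¹ * inner ℝ v d → m * ‖v‖ ≤ inner ℝ v d := by
      intro d hd
      calc m * ‖v‖ ≤ (‖v‖⁻¹ * inner ℝ v d) * ‖v‖ := mul_le_mul_of_nonneg_right hd hn.le
        _ = inner ℝ v d := by field_simp
    rcases le_max_iff.mp this with h | h
    · rcases le_max_iff.mp h with h | h
      · exact Or.inl (conv _ h)
      · exact Or.inr (Or.inl (conv _ h))
    · exact Or.inr (Or.inr (conv _ h))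

theorem exists_r : ∃ r : ℝ, 0 < r ∧ ∀ i1 j1 i2 j2 i3 j3 : Fin 12, vb i1 j1 i2 j2 i3 j3 = true →
    ∀ v : E, v ≠ 0 → 2 * r * ‖v‖ < inner ℝ v (pt i1 - pt j1) ∨
      2 * r * ‖v‖ < inner ℝ v (pt i2 - pt j2) ∨ 2 * r * ‖v‖ < inner ℝ v (pt i3 - pt j3) := by
  choose ρ hρ hρ' using exists_m
  obtain ⟨q, hq⟩ := Finite.exists_min
    (fun q : Fin 12 × Fin 12 × Fin 12 × Fin 12 × Fin 12 × Fin 12 =>
      ρ q.1 q.2.1 q.2.2.1 q.2.2.2.1 q.2.2.2.2.1 q.2.2.2.2.2)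
  set m := ρ q.1 q.2.1 q.2.2.1 q.2.2.2.1 q.2.2.2.2.1 q.2.2.2.2.2 with hm
  have hmpos : 0 < m := hρ _ _ _ _ _ _
  refine ⟨m / 4, by positivity, ?_⟩
  intro i1 j1 i2 j2 i3 j3 hv v hv0
  have hle : m ≤ ρ i1 j1 i2 j2 i3 j3 := hq (i1, j1, i2, j2, i3, j3)
  have hn : 0 < ‖v‖ := norm_pos_iff.mpr hv0
  have key : 2 * (m / 4) * ‖v‖ < ρ i1 j1 i2 j2 i3 j3 * ‖v‖ := by
    apply mul_lt_mul_of_pos_right _ hn
    linarith
  rcases hρ' i1 j1 i2 j2 i3 j3 hv v hv0 with h | h | h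
  · exact Or.inl (lt_of_lt_of_le key h)
  · exact Or.inr (Or.inl (lt_of_lt_of_le key h))
  · exact Or.inr (Or.inr (lt_of_lt_of_le key h))

end Pool.Agent.H573R3.Fair
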