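import Pool.Agent.H573R3.FairMeas

set_option autoImplicit false

namespace Pool.Agent.H573R3.Fair

open Finset MeasureTheory

/-- iterated partitions -/
inductive IP : Set E → List (Set E) → Prop
  | one (A : Set E) : IP A [A]
  | cut (A : Set E) (l₁ l₂ : List (Set E)) (v : E) (c : ℝ) : v ≠ 0 →
      IP (A ∩ {x | inner ℝ v x ≤ c}) l₁ → IP (A ∩ {x | c < inner ℝ v x}) l₂ → IP A (l₁ ++ l₂)

theorem compl_HP (v : E) (c : ℝ) : {x : E | c < inner ℝ v x} = (HP v c)ᶜ := by
  ext x
  simp [HP]

theorem IP.ne_nil {A : Set E} {L : List (Set E)} (h : IP A L) : 1 ≤ L.length := by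
  induction h with
  | one A => simp
  | cut A l₁ l₂ v c hv h1 h2 ih1 ih2 => rw [List.length_append]; omega

theorem IP.add {A : Set E} {L : List (Set E)} (h : IP A L) (ν : Measure E) [IsFiniteMeasure ν] :
    MeasurableSet A → (L.map (fun P => (ν P).toReal)).sum = (ν A).toReal := by
  induction h with
  | one A => intro _; simp
  | cut A l₁ l₂ v c hv h1 h2 ih1 ih2 =>
    intro hA
    have m1 : MeasurableSet (A ∩ {x : E | inner ℝ v x ≤ c}) := hA.inter (HP_meas v c)
    have m2 : MeasurableSet (A ∩ {x : E | c < inner ℝ v x}) := by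
      rw [compl_HP]; exact hA.inter (HP_meas v c).compl
    rw [List.map_append, List.sum_append, ih1 m1, ih2 m2,
      ← ENNReal.toReal_add (measure_ne_top _ _) (measure_ne_top _ _)]
    congr 1
    rw [compl_HP]
    have := measure_inter_add_sdiff (μ := ν) A (HP_meas v c)
    rw [Set.sdiff_eq] at this
    exact this

theorem sum_const_list {L : List (Set E)} {φ : Set E → ℝ} {q : ℝ} (h : ∀ P ∈ L, φ P = q) :
    (L.map φ).sum = L.length * q := by
  induction L with
  | nil => simp
  | cons a L ih =>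
    rw [List.map_cons, List.sum_cons, ih (fun P hP => h P (List.mem_cons_of_mem _ hP)),
      h a List.mem_cons_self, List.length_cons]
    push_cast; ring

theorem IP.inv {A : Set E} {L : List (Set E)} (h : IP A L) (h2 : 2 ≤ L.length) :
    ∃ (v : E) (c : ℝ) (l₁ l₂ : List (Set E)), v ≠ 0 ∧ L = l₁ ++ l₂ ∧
      IP (A ∩ HP v c) l₁ ∧ IP (A ∩ (HP v c)ᶜ) l₂ := by
  cases h with
  | one A => simp at h2
  | cut A l₁ l₂ v c hv g1 g2 => exact ⟨v, c, l₁, l₂, hv, rfl, g1, by rw [← compl_HP]; exact g2⟩

/-- no third-cut of the half carrying the first six discs -/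
theorem no_third {r : ℝ} (hR : Rad r) {A : Set E} (hA : MeasurableSet A)
    (hfr : ∀ i, frac r A i = ind (decide (i < 6))) {L : List (Set E)} (hL : IP A L)
    (hlen : L.length = 3) (h0 : ∀ P ∈ L, (mu r 0 P).toReal = 2 * V r)
    (h1 : ∀ P ∈ L, (mu r 1 P).toReal = 20 * V r) : False := by
  have hr := hR.pos
  have hV := V_pos hr
  obtain ⟨v, c, l₁, l₂, hv, hLe, hI1, hI2⟩ := hL.inv (by omega)
  have hn1 := hI1.ne_nil
  have hn2 := hI2.ne_nil
  have hlen' : l₁.length + l₂.length = 3 := by rw [← hlen, hLe, List.length_append]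
  have hm : MeasurableSet (A ∩ HP v c) := hA.inter (HP_meas v c)
  have e0 := hI1.add (mu r 0) hm
  have e1 := hI1.add (mu r 1) hm
  rw [sum_const_list (q := 2 * V r) (fun P hP => h0 P (by rw [hLe]; simp [hP]))] at e0
  rw [sum_const_list (q := 20 * V r) (fun P hP => h1 P (by rw [hLe]; simp [hP]))] at e1
  rw [mu0_toReal hr hm] at e0
  rw [mu1_toReal hr hm] at e1
  -- fractions
  set t := frac r (HP v c) with ht
  have hfi : ∀ i, frac r (A ∩ HP v c) i = if i < 6 then t i else 0 := by
    intro i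
    by_cases hi : i < 6
    · rw [if_pos hi]
      apply frac_inter_one hr hA
      rw [hfr i]; simp [hi]
    · rw [if_neg hi]
      apply frac_inter_zero hr
      rw [hfr i]; simp [hi]
  have s0 : ∑ i, frac r (A ∩ HP v c) i = ∑ i ∈ S0, t i := by
    rw [S0, Finset.sum_filter]
    exact Finset.sum_congr rfl (fun i _ => hfi i)
  have s1 : ∑ i, (kp i : ℝ) * frac r (A ∩ HP v c) i = ∑ i ∈ S0, (kp i : ℝ) * t i := by
    rw [S0, Finset.sum_filter]
    refine Finset.sum_congr rfl (fun i _ => ?_)
    rw [hfi i]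
    by_cases hi : i < 6
    · simp [hi]
    · simp [hi]
  rw [s0] at e0
  rw [s0, s1] at e1
  have e0' : ∑ i ∈ S0, t i = 2 * l₁.length := by
    have : V r * (∑ i ∈ S0, t i - 2 * l₁.length) = 0 := by linarith
    rcases mul_eq_zero.mp this with h | h
    · exact absurd h hV.ne'
    · linarith
  have e1' : ∑ i ∈ S0, (kp i : ℝ) * t i = 0 := by
    rw [e0'] at e1
    have : V r * (∑ i ∈ S0, (kp i : ℝ) * t i) = 0 := by linarith
    rcases mul_eq_zero.mp this with h | h
    · exact absurd h hV.ne'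
    · exact h
  have hleg : Legal t := legal_HP hR hv c
  have hcase : l₁.length = 1 ∨ l₁.length = 2 := by omega
  rcases hcase with hl | hl
  · rw [hl] at e0'
    have := D4 hleg (by rw [e0']; norm_num)
    linarith
  · rw [hl] at e0'
    have hc : ∑ i ∈ S0, (1 - t i) = 2 := by
      rw [Finset.sum_sub_distrib, card_S0, e0']; norm_num
    have := D4 hleg.compl hc
    have e : ∑ i ∈ S0, (kp i : ℝ) * (1 - t i) = 0 := by
      have : ∑ i ∈ S0, (kp i : ℝ) * (1 - t i) =
          ∑ i ∈ S0, (kp i : ℝ) - ∑ i ∈ S0, (kp i : ℝ) * t i := by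
        rw [← Finset.sum_sub_distrib]
        exact Finset.sum_congr rfl (fun i _ => by ring)
      rw [this, sum_kp_S0, e1']; ring
    linarith

theorem no_fair {r : ℝ} (hR : Rad r) {L : List (Set E)} (hL : IP Set.univ L)
    (hlen : L.length = 6) (hfair : ∀ k, ∀ P ∈ L, ∀ Q ∈ L, mu r k P = mu r k Q) : False := by
  have hr := hR.pos
  have hV := V_pos hr
  obtain ⟨P0, hP0⟩ : ∃ P0, P0 ∈ L := List.exists_mem_of_length_pos (by omega)
  have hu : MeasurableSet (Set.univ : Set E) := MeasurableSet.univ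
  have a0 := hL.add (mu r 0) hu
  have a1 := hL.add (mu r 1) hu
  rw [sum_const_list (q := (mu r 0 P0).toReal) (fun P hP => by rw [hfair 0 P hP P0 hP0]),
    hlen, mu0_toReal hr hu] at a0
  rw [sum_const_list (q := (mu r 1 P0).toReal) (fun P hP => by rw [hfair 1 P hP P0 hP0]),
    hlen, mu1_toReal hr hu] at a1
  have su : ∑ i, frac r Set.univ i = 12 := by
    rw [Finset.sum_congr rfl (fun i _ => frac_univ hr i)]
    simp
  have sk : ∑ i, (kp i : ℝ) * frac r Set.univ i = 0 := by
    rw [Finset.sum_congr rfl (fun i _ => by rw [frac_univ hr i, mul_one])]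
    exact sum_kp
  rw [su] at a0
  rw [su, sk] at a1
  have q0 : ∀ P ∈ L, (mu r 0 P).toReal = 2 * V r := by
    intro P hP
    rw [hfair 0 P hP P0 hP0]
    push_cast at a0; linarith
  have q1 : ∀ P ∈ L, (mu r 1 P).toReal = 20 * V r := by
    intro P hP
    rw [hfair 1 P hP P0 hP0]
    push_cast at a1; linarith
  obtain ⟨v, c, l₁, l₂, hv, hLe, hI1, hI2⟩ := hL.inv (by omega)
  rw [Set.univ_inter] at hI1 hI2
  have hn1 := hI1.ne_nil
  have hn2 := hI2.ne_nil
  have hlen' : l₁.length + l₂.length = 6 := by rw [← hlen, hLe, List.length_append]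
  have hm : MeasurableSet (HP v c) := HP_meas v c
  have e0 := hI1.add (mu r 0) hm
  have e1 := hI1.add (mu r 1) hm
  rw [sum_const_list (q := 2 * V r) (fun P hP => q0 P (by rw [hLe]; simp [hP]))] at e0
  rw [sum_const_list (q := 20 * V r) (fun P hP => q1 P (by rw [hLe]; simp [hP]))] at e1
  rw [mu0_toReal hr hm] at e0
  rw [mu1_toReal hr hm] at e1
  set t := frac r (HP v c) with ht
  have e0' : ∑ i, t i = 2 * l₁.length := by
    have : V r * (∑ i, t i - 2 * l₁.length) = 0 := by linarith
    rcases mul_eq_zero.mp this with h | h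
    · exact absurd h hV.ne'
    · linarith
  have e1' : ∑ i, (kp i : ℝ) * t i = 0 := by
    rw [e0'] at e1
    have : V r * (∑ i, (kp i : ℝ) * t i) = 0 := by linarith
    rcases mul_eq_zero.mp this with h | h
    · exact absurd h hV.ne'
    · exact h
  have hleg : Legal t := legal_HP hR hv c
  have hc1 : ∑ i, (1 - t i) = 12 - 2 * l₁.length := by
    rw [Finset.sum_sub_distrib, e0']; simp
  have hc2 : ∑ i, (kp i : ℝ) * (1 - t i) = 0 := by
    have : ∑ i, (kp i : ℝ) * (1 - t i) = ∑ i, (kp i : ℝ) - ∑ i, (kp i : ℝ) * t i := by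
      rw [← Finset.sum_sub_distrib]
      exact Finset.sum_congr rfl (fun i _ => by ring)
    rw [this, sum_kp, e1']; ring
  have hcase : l₁.length = 1 ∨ l₁.length = 2 ∨ l₁.length = 3 ∨ l₁.length = 4 ∨
      l₁.length = 5 := by omega
  rcases hcase with hl | hl | hl | hl | hl
  · have := D1 hleg (by rw [e0', hl]; norm_num)
    linarith
  · have := D2 hleg (by rw [e0', hl]; norm_num)
    linarith
  · rcases D3 hleg (by rw [e0', hl]; norm_num) e1' with h | h
    · exact no_third hR hm h hI1 hl (fun P hP => q0 P (by rw [hLe]; simp [hP]))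
        (fun P hP => q1 P (by rw [hLe]; simp [hP]))
    · refine no_third hR hm.compl ?_ hI2 (by omega) (fun P hP => q0 P (by rw [hLe]; simp [hP]))
        (fun P hP => q1 P (by rw [hLe]; simp [hP]))
      intro i
      rw [frac_compl hr hm]
      have := h i
      rw [ht] at this
      rw [this]
      by_cases hi : i < 6
      · have : ¬ (6 ≤ i) := not_le.mpr hi
        simp [hi, this]
      · have : 6 ≤ i := not_lt.mp hi
        simp [hi, this]
  · have := D2 hleg.compl (by rw [hc1, hl]; norm_num)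
    linarith
  · have := D1 hleg.compl (by rw [hc1, hl]; norm_num)
    linarith

end Pool.Agent.H573R3.Fair
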