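import Pool.Agent.H573R3.FairGeo

set_option autoImplicit false

namespace Pool.Agent.H573R3.Fair

open Finset MeasureTheory

/-- radius data with its separation property -/
structure Rad (r : ℝ) : Prop where
  pos : 0 < r
  sep : ∀ i1 j1 i2 j2 i3 j3 : Fin 12, vb i1 j1 i2 j2 i3 j3 = true →
    ∀ v : E, v ≠ 0 → 2 * r * ‖v‖ < inner ℝ v (pt i1 - pt j1) ∨
      2 * r * ‖v‖ < inner ℝ v (pt i2 - pt j2) ∨ 2 * r * ‖v‖ < inner ℝ v (pt i3 - pt j3)

/-- the small discs -/
def B (r : ℝ) (i : Fin 12) : Set E := Metric.ball (pt i) r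

/-- the common area of the discs -/
noncomputable def V (r : ℝ) : ℝ := (volume (Metric.ball (0 : E) r)).toReal

/-- fraction of the `i`-th disc inside `A` -/
noncomputable def frac (r : ℝ) (A : Set E) (i : Fin 12) : ℝ := (volume (A ∩ B r i)).toReal / V r

theorem vol_B (r : ℝ) (i : Fin 12) : volume (B r i) = volume (Metric.ball (0 : E) r) :=
  Measure.addHaar_ball_center _ _ _

theorem vol_B_lt (r : ℝ) (i : Fin 12) : volume (B r i) < ⊤ := measure_ball_lt_top

theorem V_pos {r : ℝ} (hr : 0 < r) : 0 < V r :=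
  ENNReal.toReal_pos (Metric.measure_ball_pos _ _ hr).ne' measure_ball_lt_top.ne

theorem vol_inter_lt (r : ℝ) (A : Set E) (i : Fin 12) : volume (A ∩ B r i) < ⊤ :=
  lt_of_le_of_lt (measure_mono Set.inter_subset_right) (vol_B_lt r i)

theorem frac_nonneg {r : ℝ} (hr : 0 < r) (A : Set E) (i : Fin 12) : 0 ≤ frac r A i :=
  div_nonneg ENNReal.toReal_nonneg (V_pos hr).le

theorem frac_le_one {r : ℝ} (hr : 0 < r) (A : Set E) (i : Fin 12) : frac r A i ≤ 1 := by
  unfold frac
  rw [div_le_one (V_pos hr)]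
  unfold V
  rw [← vol_B r i]
  exact ENNReal.toReal_mono (vol_B_lt r i).ne (measure_mono Set.inter_subset_right)

theorem frac_univ {r : ℝ} (hr : 0 < r) (i : Fin 12) : frac r Set.univ i = 1 := by
  unfold frac
  rw [Set.univ_inter, vol_B]
  exact div_self (V_pos hr).ne'

theorem frac_pos_nonempty {r : ℝ} {A : Set E} {i : Fin 12} (h : 0 < frac r A i) :
    ∃ x, x ∈ A ∧ x ∈ B r i := by
  by_contra hcon
  push Not at hcon
  have : A ∩ B r i = ∅ := by
    ext x
    simp only [Set.mem_inter_iff, Set.mem_empty_iff_false, iff_false, not_and]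
    exact hcon x
  unfold frac at h
  rw [this] at h
  simp at h

theorem frac_lt_one_exists {r : ℝ} (hr : 0 < r) {A : Set E} {i : Fin 12} (h : frac r A i < 1) :
    ∃ x, x ∉ A ∧ x ∈ B r i := by
  by_contra hcon
  push Not at hcon
  have hsub : B r i ⊆ A := fun x hx => by
    by_contra hxA
    exact hcon x hxA hx
  have : A ∩ B r i = B r i := Set.inter_eq_right.mpr hsub
  unfold frac at h
  rw [this, vol_B] at h
  have h1 : (volume (Metric.ball (0 : E) r)).toReal / V r = 1 := div_self (V_pos hr).ne'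
  rw [h1] at h
  exact lt_irrefl _ h

/-- the closed half-plane -/
def HP (v : E) (c : ℝ) : Set E := {x | inner ℝ v x ≤ c}

theorem HP_meas (v : E) (c : ℝ) : MeasurableSet (HP v c) :=
  (isClosed_le (by fun_prop) continuous_const).measurableSet

theorem near {r : ℝ} {v : E} (hv : v ≠ 0) {i : Fin 12} {x : E} (hx : x ∈ B r i) :
    |inner ℝ v x - inner ℝ v (pt i)| < ‖v‖ * r := by
  rw [← inner_sub_right]
  have h1 : |inner ℝ v (x - pt i)| ≤ ‖v‖ * ‖x - pt i‖ := abs_real_inner_le_norm _ _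
  have h2 : ‖x - pt i‖ < r := by
    have := hx
    unfold B at this
    rwa [Metric.mem_ball, dist_eq_norm] at this
  exact lt_of_le_of_lt h1 (mul_lt_mul_of_pos_left h2 (norm_pos_iff.mpr hv))

theorem legal_HP {r : ℝ} (hR : Rad r) {v : E} (hv : v ≠ 0) (c : ℝ) :
    Legal (frac r (HP v c)) := by
  refine ⟨fun i => frac_nonneg hR.pos _ i, fun i => frac_le_one hR.pos _ i, ?_⟩
  intro i1 j1 i2 j2 i3 j3 hvb hh
  have key : ∀ i j, 0 < frac r (HP v c) i → frac r (HP v c) j < 1 →
      inner ℝ v (pt i - pt j) < 2 * r * ‖v‖ := by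
    intro i j hi hj
    obtain ⟨x, hxA, hxB⟩ := frac_pos_nonempty hi
    obtain ⟨y, hyA, hyB⟩ := frac_lt_one_exists hR.pos hj
    have h1 := near hv hxB
    have h2 := near hv hyB
    have h3 : inner ℝ v x ≤ c := hxA
    have h4 : c < inner ℝ v y := by
      by_contra hcon
      exact hyA (not_lt.mp hcon)
    rw [abs_lt] at h1 h2
    rw [inner_sub_right]
    nlinarith [h1.1, h2.2]
  rcases hR.sep i1 j1 i2 j2 i3 j3 hvb v hv with h | h | h
  · exact lt_asymm h (key _ _ hh.1 hh.2.2.2.1)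
  · exact lt_asymm h (key _ _ hh.2.1 hh.2.2.2.2.1)
  · exact lt_asymm h (key _ _ hh.2.2.1 hh.2.2.2.2.2)

/-- the weights of the second measure -/
def wq : Fin 12 → ℕ := ![9, 9, 9, 9, 9, 15, 9, 17, 15, 9, 9, 1]

theorem wq_eq (i : Fin 12) : ((wq i : ℕ) : ℝ) = 10 + (kp i : ℝ) := by
  have h : ((wq i : ℕ) : ℤ) = 10 + kp i := by
    revert i; decide
  have h2 : (((wq i : ℕ) : ℤ) : ℝ) = ((10 + kp i : ℤ) : ℝ) := by rw [h]
  push_cast at h2
  exact h2

/-- the weights of the two measures -/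
def wt2 (k : Fin 2) (i : Fin 12) : ℕ := if k = 0 then 1 else wq i

/-- the two measures -/
noncomputable def mu (r : ℝ) (k : Fin 2) : Measure E :=
  ∑ i, (wt2 k i : ENNReal) • volume.restrict (B r i)

theorem mu_apply (r : ℝ) (k : Fin 2) {A : Set E} (hA : MeasurableSet A) :
    mu r k A = ∑ i, (wt2 k i : ENNReal) * volume (A ∩ B r i) := by
  unfold mu
  rw [Measure.finset_sum_apply]
  refine Finset.sum_congr rfl ?_
  intro i _
  rw [Measure.smul_apply, Measure.restrict_apply hA, smul_eq_mul]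

theorem mu_lt_top (r : ℝ) (k : Fin 2) (A : Set E) (hA : MeasurableSet A) : mu r k A < ⊤ := by
  rw [mu_apply r k hA]
  refine ENNReal.sum_lt_top.mpr ?_
  intro i _
  exact ENNReal.mul_lt_top (ENNReal.natCast_lt_top _) (vol_inter_lt r A i)

instance (r : ℝ) (k : Fin 2) : IsFiniteMeasure (mu r k) :=
  ⟨mu_lt_top r k _ MeasurableSet.univ⟩

theorem mu_ac (r : ℝ) (k : Fin 2) : mu r k ≪ (volume : Measure E) := by
  refine Measure.AbsolutelyContinuous.mk ?_
  intro s hs h0
  rw [mu_apply r k hs]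
  refine Finset.sum_eq_zero ?_
  intro i _
  have : volume (s ∩ B r i) = 0 := measure_mono_null Set.inter_subset_left h0
  rw [this, mul_zero]

theorem mu_toReal {r : ℝ} (hr : 0 < r) (k : Fin 2) {A : Set E} (hA : MeasurableSet A) :
    (mu r k A).toReal = V r * ∑ i, (wt2 k i : ℝ) * frac r A i := by
  rw [mu_apply r k hA, ENNReal.toReal_sum]
  · rw [Finset.mul_sum]
    refine Finset.sum_congr rfl ?_
    intro i _
    rw [ENNReal.toReal_mul, ENNReal.toReal_natCast]
    unfold frac
    have := (V_pos hr).ne'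
    field_simp
  · intro i _
    exact (ENNReal.mul_lt_top (ENNReal.natCast_lt_top _) (vol_inter_lt r A i)).ne

theorem mu0_toReal {r : ℝ} (hr : 0 < r) {A : Set E} (hA : MeasurableSet A) :
    (mu r 0 A).toReal = V r * ∑ i, frac r A i := by
  rw [mu_toReal hr 0 hA]
  simp [wt2]

theorem mu1_toReal {r : ℝ} (hr : 0 < r) {A : Set E} (hA : MeasurableSet A) :
    (mu r 1 A).toReal = V r * (10 * ∑ i, frac r A i + ∑ i, (kp i : ℝ) * frac r A i) := by
  rw [mu_toReal hr 1 hA]
  congr 1
  rw [Finset.mul_sum, ← Finset.sum_add_distrib]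
  refine Finset.sum_congr rfl ?_
  intro i _
  have : (wt2 1 i : ℝ) = 10 + (kp i : ℝ) := by
    rw [← wq_eq]; simp [wt2]
  rw [this]; ring

theorem sum_kp : ∑ i, (kp i : ℝ) = 0 := by
  have h : ∑ i, kp i = 0 := by decide
  exact_mod_cast h

theorem sum_kp_S0 : ∑ i ∈ S0, (kp i : ℝ) = 0 := by
  have h : ∑ i ∈ S0, kp i = 0 := by decide
  exact_mod_cast h

theorem card_S0 : ∑ i ∈ S0, (1 : ℝ) = 6 := by
  have h : S0.card = 6 := by decide
  rw [Finset.sum_const, h]; norm_num

/-- complement in a measurable set -/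
theorem frac_compl {r : ℝ} (hr : 0 < r) {A : Set E} (hA : MeasurableSet A) (i : Fin 12) :
    frac r Aᶜ i = 1 - frac r A i := by
  have h : volume (A ∩ B r i) + volume (Aᶜ ∩ B r i) = volume (B r i) := by
    rw [Set.inter_comm A, Set.inter_comm Aᶜ]
    rw [← Set.diff_eq]
    exact measure_inter_add_diff _ hA
  have h2 : (volume (A ∩ B r i)).toReal + (volume (Aᶜ ∩ B r i)).toReal = V r := by
    rw [← ENNReal.toReal_add (vol_inter_lt r A i).ne (vol_inter_lt r Aᶜ i).ne, h, vol_B]
    rfl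
  unfold frac
  have hV := (V_pos hr).ne'
  field_simp
  linarith

/-- if `A` contains almost all of disc `i` then intersecting with `A` does not change fractions -/
theorem frac_inter_one {r : ℝ} (hr : 0 < r) {A H : Set E} (hA : MeasurableSet A)
    {i : Fin 12} (h1 : frac r A i = 1) : frac r (A ∩ H) i = frac r H i := by
  have h0 : frac r Aᶜ i = 0 := by rw [frac_compl hr hA, h1]; ring
  have hV := (V_pos hr).ne'
  have hz : volume (Aᶜ ∩ B r i) = 0 := by
    unfold frac at h0
    rcases div_eq_zero_iff.mp h0 with h | h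
    · rcases (ENNReal.toReal_eq_zero_iff _).mp h with h | h
      · exact h
      · exact absurd h (vol_inter_lt r Aᶜ i).ne
    · exact absurd h hV
  unfold frac
  congr 2
  apply le_antisymm
  · exact measure_mono (by intro x hx; exact ⟨hx.1.2, hx.2⟩)
  · calc volume (H ∩ B r i) ≤ volume ((A ∩ H ∩ B r i) ∪ (Aᶜ ∩ B r i)) := by
          apply measure_mono
          intro x hx
          by_cases hxA : x ∈ A
          · left; exact ⟨⟨hxA, hx.1⟩, hx.2⟩
          · right; exact ⟨hxA, hx.2⟩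
      _ ≤ volume (A ∩ H ∩ B r i) + volume (Aᶜ ∩ B r i) := measure_union_le _ _
      _ = volume (A ∩ H ∩ B r i) := by rw [hz, add_zero]

theorem frac_inter_zero {r : ℝ} (hr : 0 < r) {A H : Set E}
    {i : Fin 12} (h1 : frac r A i = 0) : frac r (A ∩ H) i = 0 := by
  have hV := (V_pos hr).ne'
  have hz : volume (A ∩ B r i) = 0 := by
    unfold frac at h1
    rcases div_eq_zero_iff.mp h1 with h | h
    · rcases (ENNReal.toReal_eq_zero_iff _).mp h with h | h
      · exact h
      · exact absurd h (vol_inter_lt r A i).ne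
    · exact absurd h hV
  have : volume (A ∩ H ∩ B r i) = 0 :=
    measure_mono_null (by intro x hx; exact ⟨hx.1.1, hx.2⟩) hz
  unfold frac
  rw [this]; simp

end Pool.Agent.H573R3.Fair
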