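import Pool.Agent.H573R3.FairComb

set_option autoImplicit false

/-!
From the finite check to fractional weights `t : Fin 12 → [0,1]`.
-/

namespace Pool.Agent.H573R3.Fair

open Finset

/-- indicator of a Boolean -/
def ind (b : Bool) : ℝ := if b then 1 else 0

@[simp] theorem ind_true : ind true = 1 := rfl
@[simp] theorem ind_false : ind false = 0 := rfl

theorem ind_nonneg (b : Bool) : 0 ≤ ind b := by cases b <;> simp

/-- the constraints satisfied by the fractions cut off by a half-plane -/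
structure Legal (t : Fin 12 → ℝ) : Prop where
  nonneg : ∀ i, 0 ≤ t i
  le_one : ∀ i, t i ≤ 1
  cert : ∀ i1 j1 i2 j2 i3 j3, vb i1 j1 i2 j2 i3 j3 = true →
    ¬ (0 < t i1 ∧ 0 < t i2 ∧ 0 < t i3 ∧ t j1 < 1 ∧ t j2 < 1 ∧ t j3 < 1)

theorem dt_swap (a b c d : Fin 12) : dt b a d c = dt a b c d := by
  unfold dt; ring

theorem Legal.compl {t : Fin 12 → ℝ} (h : Legal t) : Legal (fun i => 1 - t i) := by
  refine ⟨fun i => by linarith [h.le_one i], fun i => by linarith [h.nonneg i], ?_⟩
  intro i1 j1 i2 j2 i3 j3 hv hh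
  have hv' : vb j1 i1 j2 i2 j3 i3 = true := by
    unfold vb at hv ⊢
    rw [dt_swap i1 j1 i2 j2, dt_swap i2 j2 i3 j3, dt_swap i3 j3 i1 j1]; exact hv
  exact h.cert j1 i1 j2 i2 j3 i3 hv' ⟨by linarith [hh.2.2.2.1], by linarith [hh.2.2.2.2.1],
    by linarith [hh.2.2.2.2.2], by linarith [hh.1], by linarith [hh.2.1], by linarith [hh.2.2.1]⟩

theorem Legal.tri {t : Fin 12 → ℝ} (h : Legal t) {x y z : Fin 12} (hxy : x ≠ y) (hyz : y ≠ z)
    (hxz : x ≠ z) (hx : 0 < t x ∧ t x < 1) (hy : 0 < t y ∧ t y < 1) (hz : 0 < t z ∧ t z < 1) :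
    False := by
  rcases tri_valid x y z hxy hyz hxz with hv | hv
  · exact h.cert _ _ _ _ _ _ hv ⟨hx.1, hy.1, hz.1, hy.2, hz.2, hx.2⟩
  · exact h.cert _ _ _ _ _ _ hv ⟨hy.1, hx.1, hz.1, hx.2, hz.2, hy.2⟩

theorem cnt_ofBits (f : Fin 12 → Bool) : ((cnt (Nat.ofBits f) : ℤ) : ℝ) = ∑ i, ind (f i) := by
  have h : ∀ i (hi : i < 12), (Nat.ofBits f).testBit i = f ⟨i, hi⟩ := fun i hi =>
    Nat.testBit_ofBits_lt f i hi
  unfold cnt
  rw [h 0 (by norm_num), h 1 (by norm_num), h 2 (by norm_num), h 3 (by norm_num),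
    h 4 (by norm_num), h 5 (by norm_num), h 6 (by norm_num), h 7 (by norm_num),
    h 8 (by norm_num), h 9 (by norm_num), h 10 (by norm_num), h 11 (by norm_num)]
  have hb : ∀ b : Bool, (((bif b then 1 else 0 : ℤ)) : ℝ) = ind b := by
    intro b; cases b <;> simp
  push_cast
  simp only [Fin.sum_univ_succ, Fin.sum_univ_zero]
  simp only [← hb]
  push_cast
  ring

theorem wt_ofBits (f : Fin 12 → Bool) :
    ((wt (Nat.ofBits f) : ℤ) : ℝ) = ∑ i, (kp i : ℝ) * ind (f i) := by
  have h : ∀ i (hi : i < 12), (Nat.ofBits f).testBit i = f ⟨i, hi⟩ := fun i hi =>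
    Nat.testBit_ofBits_lt f i hi
  unfold wt
  rw [h 0 (by norm_num), h 1 (by norm_num), h 2 (by norm_num), h 3 (by norm_num),
    h 4 (by norm_num), h 5 (by norm_num), h 6 (by norm_num), h 7 (by norm_num),
    h 8 (by norm_num), h 9 (by norm_num), h 10 (by norm_num), h 11 (by norm_num)]
  have hb : ∀ (b : Bool) (k : ℤ), (((bif b then k else 0 : ℤ)) : ℝ) = (k : ℝ) * ind b := by
    intro b k; cases b <;> simp
  rw [Int.cast_add, Int.cast_add, Int.cast_add, Int.cast_add, Int.cast_add, Int.cast_add,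
    Int.cast_add, Int.cast_add, Int.cast_add, Int.cast_add, Int.cast_add]
  simp only [hb]
  simp only [Fin.sum_univ_succ, Fin.sum_univ_zero, kp]
  simp
  ring

/-- decomposition of a legal fractional vector with integral sum over `M` -/
theorem decomp {t : Fin 12 → ℝ} (h : Legal t) (M : Finset (Fin 12)) (s : ℤ)
    (hs : ∑ i ∈ M, t i = s) :
    ∃ (f g : Fin 12 → Bool) (a b : ℝ), 0 < a ∧ 0 < b ∧ a + b = 1 ∧
      (∀ i, i ∉ M → f i = false ∧ g i = false) ∧
      (∀ i ∈ M, t i = a * ind (f i) + b * ind (g i)) ∧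
      (∀ i ∈ M, (f i = true → 0 < t i) ∧ (f i = false → t i < 1)) ∧
      (∀ i ∈ M, (g i = true → 0 < t i) ∧ (g i = false → t i < 1)) ∧
      (∑ i ∈ M, ind (f i) = s) ∧ (∑ i ∈ M, ind (g i) = s) ∧
      (f = g ∨ ∃ x ∈ M, ∃ y ∈ M, x ≠ y ∧ f x = true ∧ f y = false ∧ g x = false ∧ g y = true ∧
        ∀ i, i ≠ x → i ≠ y → f i = g i) := by
  classical
  set C := M.filter (fun i => 0 < t i ∧ t i < 1) with hC
  have hout : ∀ i ∈ M, i ∉ C → t i = 0 ∨ t i = 1 := by
    intro i hi hiC
    by_contra hcon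
    push Not at hcon
    exact hiC (by
      rw [hC, mem_filter]
      exact ⟨hi, lt_of_le_of_ne (h.nonneg i) (Ne.symm hcon.1),
        lt_of_le_of_ne (h.le_one i) hcon.2⟩)
  have hcard : C.card ≤ 2 := by
    by_contra hcon
    push Not at hcon
    obtain ⟨x, hx, y, hy, z, hz, hxy, hxz, hyz⟩ := Finset.two_lt_card.mp hcon
    rw [hC, mem_filter] at hx hy hz
    exact h.tri hxy hyz hxz hx.2 hy.2 hz.2
  -- sum outside C
  have hsum : ∑ i ∈ M, t i = ∑ i ∈ C, t i + ∑ i ∈ M \ C, t i := by
    rw [add_comm, Finset.sum_sdiff (by rw [hC]; exact filter_subset _ _)]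
  have hint : ∑ i ∈ M \ C, t i = (((M \ C).filter (fun i => t i = 1)).card : ℤ) := by
    rw [Finset.card_filter]
    push_cast
    refine Finset.sum_congr rfl ?_
    intro i hi
    rw [mem_sdiff] at hi
    rcases hout i hi.1 hi.2 with h0 | h1
    · rw [h0]; simp
    · rw [h1]; simp
  interval_cases hcc : C.card
  · -- no fractional entries
    have hCe : C = ∅ := Finset.card_eq_zero.mp hcc
    have hall : ∀ i ∈ M, t i = 0 ∨ t i = 1 := fun i hi => hout i hi (by rw [hCe]; simp)
    have hti : ∀ i ∈ M, t i = ind (decide (i ∈ M ∧ t i = 1)) := by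
      intro i hi
      rcases hall i hi with h0 | h1
      · rw [h0]; simp
      · rw [h1]; simp [hi]
    refine ⟨fun i => decide (i ∈ M ∧ t i = 1), fun i => decide (i ∈ M ∧ t i = 1), 1/2, 1/2,
      by norm_num, by norm_num, by norm_num, ?_, ?_, ?_, ?_, ?_, ?_, Or.inl rfl⟩
    · intro i hi; simp [hi]
    · intro i hi
      have := hti i hi
      simp only at this ⊢
      linarith
    · intro i hi
      refine ⟨fun hf => ?_, fun hf => ?_⟩
      · have : t i = 1 := (of_decide_eq_true hf).2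
        rw [this]; norm_num
      · rcases hall i hi with h0 | h1
        · rw [h0]; norm_num
        · exact absurd ⟨hi, h1⟩ (of_decide_eq_false hf)
    · intro i hi
      refine ⟨fun hf => ?_, fun hf => ?_⟩
      · have : t i = 1 := (of_decide_eq_true hf).2
        rw [this]; norm_num
      · rcases hall i hi with h0 | h1
        · rw [h0]; norm_num
        · exact absurd ⟨hi, h1⟩ (of_decide_eq_false hf)
    · rw [← hs]; exact Finset.sum_congr rfl (fun i hi => (hti i hi).symm)
    · rw [← hs]; exact Finset.sum_congr rfl (fun i hi => (hti i hi).symm)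
  · -- one fractional entry: impossible
    exfalso
    obtain ⟨x, hx⟩ := Finset.card_eq_one.mp hcc
    have hxC : x ∈ C := by rw [hx]; simp
    rw [hC, mem_filter] at hxC
    have hCs : ∑ i ∈ C, t i = t x := by rw [hx, Finset.sum_singleton]
    rw [hs, hint, hCs] at hsum
    set m : ℤ := (((M \ C).filter (fun i => t i = 1)).card : ℤ)
    have h1 : ((s - m : ℤ) : ℝ) = t x := by
      push_cast; linarith
    have h2 : (0 : ℝ) < ((s - m : ℤ) : ℝ) := by rw [h1]; exact hxC.2.1
    have h3 : ((s - m : ℤ) : ℝ) < 1 := by rw [h1]; exact hxC.2.2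
    have h2' : 0 < s - m := by exact_mod_cast h2
    have h3' : s - m < 1 := by exact_mod_cast h3
    omega
  · -- two fractional entries
    obtain ⟨x, y, hxy, hCxy⟩ := Finset.card_eq_two.mp hcc
    have hxC : x ∈ C := by rw [hCxy]; simp
    have hyC : y ∈ C := by rw [hCxy]; simp
    rw [hC, mem_filter] at hxC hyC
    have hsum2 : (s : ℝ) = (t x + t y) +
        (((M \ C).filter (fun i => t i = 1)).card : ℤ) := by
      rw [← hs, hsum, hint, hCxy, Finset.sum_pair hxy]
    set m : ℤ := (((M \ C).filter (fun i => t i = 1)).card : ℤ)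
    have h1 : ((s - m : ℤ) : ℝ) = t x + t y := by push_cast; linarith
    have h2 : (0 : ℝ) < ((s - m : ℤ) : ℝ) := by rw [h1]; linarith [hxC.2.1, hyC.2.1]
    have h3 : ((s - m : ℤ) : ℝ) < 2 := by rw [h1]; linarith [hxC.2.2, hyC.2.2]
    have h2' : 0 < s - m := by exact_mod_cast h2
    have h3' : s - m < 2 := by exact_mod_cast h3
    have h4 : s - m = 1 := by omega
    have hab : t x + t y = 1 := by rw [← h1, h4]; norm_num
    have hx1 : t x ≠ 1 := ne_of_lt hxC.2.2
    have hy1 : t y ≠ 1 := ne_of_lt hyC.2.2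
    have hother : ∀ i ∈ M, i ≠ x → i ≠ y → t i = 0 ∨ t i = 1 := by
      intro i hi hix hiy
      exact hout i hi (by rw [hCxy]; simp [hix, hiy])
    set f : Fin 12 → Bool := fun i => decide (i = x ∨ (i ∈ M ∧ t i = 1)) with hf
    set g : Fin 12 → Bool := fun i => decide (i = y ∨ (i ∈ M ∧ t i = 1)) with hg
    have hfx : f x = true := by simp [hf]
    have hgy : g y = true := by simp [hg]
    have hfy : f y = false := by simp [hf, hxy.symm, hy1]
    have hgx : g x = false := by simp [hg, hxy, hx1]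
    have hfg : ∀ i, i ≠ x → i ≠ y → f i = g i := by
      intro i hix hiy; simp [hf, hg, hix, hiy]
    have hrep : ∀ i ∈ M, t i = t x * ind (f i) + t y * ind (g i) := by
      intro i hi
      by_cases hix : i = x
      · subst hix; rw [hfx, hgx]; simp
      by_cases hiy : i = y
      · subst hiy; rw [hfy, hgy]; simp
      rcases hother i hi hix hiy with h0 | h1
      · have e1 : f i = false := by simp [hf, hix, h0]
        have e2 : g i = false := by simp [hg, hiy, h0]
        rw [e1, e2, h0]; simp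
      · have e1 : f i = true := by simp [hf, hi, h1]
        have e2 : g i = true := by simp [hg, hi, h1]
        rw [e1, e2, h1]; simp; linarith
    have hdiff : ∑ i ∈ M, ind (f i) = ∑ i ∈ M, ind (g i) := by
      have e : ∑ i ∈ M, (ind (f i) - ind (g i)) =
          ∑ i ∈ M, ((if i = x then (1:ℝ) else 0) - (if i = y then (1:ℝ) else 0)) := by
        refine Finset.sum_congr rfl ?_
        intro i hi
        by_cases hix : i = x
        · subst hix; rw [hfx, hgx]; simp [hxy]
        by_cases hiy : i = y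
        · subst hiy; rw [hfy, hgy]; simp [hxy.symm]
        rw [hfg i hix hiy]; simp [hix, hiy]
      rw [Finset.sum_sub_distrib, Finset.sum_sub_distrib, Finset.sum_ite_eq' M x,
        Finset.sum_ite_eq' M y, if_pos hxC.1, if_pos hyC.1] at e
      linarith
    have hfs : ∑ i ∈ M, ind (f i) = s := by
      have e : ∑ i ∈ M, t i = t x * ∑ i ∈ M, ind (f i) + t y * ∑ i ∈ M, ind (g i) := by
        rw [Finset.mul_sum, Finset.mul_sum, ← Finset.sum_add_distrib]
        exact Finset.sum_congr rfl hrep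
      rw [hs, ← hdiff, ← add_mul, hab, one_mul] at e
      exact e.symm
    refine ⟨f, g, t x, t y, hxC.2.1, hyC.2.1, hab, ?_, hrep, ?_, ?_, hfs, hdiff ▸ hfs,
      Or.inr ⟨x, hxC.1, y, hyC.1, hxy, hfx, hfy, hgx, hgy, hfg⟩⟩
    · intro i hi
      have hix : i ≠ x := fun e => hi (e ▸ hxC.1)
      have hiy : i ≠ y := fun e => hi (e ▸ hyC.1)
      simp [hf, hg, hi, hix, hiy]
    · intro i hi
      refine ⟨fun hh => ?_, fun hh => ?_⟩
      · rcases of_decide_eq_true hh with e | e
        · rw [e]; exact hxC.2.1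
        · rw [e.2]; norm_num
      · have hn := of_decide_eq_false hh
        push Not at hn
        exact lt_of_le_of_ne (h.le_one i) (hn.2 hi)
    · intro i hi
      refine ⟨fun hh => ?_, fun hh => ?_⟩
      · rcases of_decide_eq_true hh with e | e
        · rw [e]; exact hyC.2.1
        · rw [e.2]; norm_num
      · have hn := of_decide_eq_false hh
        push Not at hn
        exact lt_of_le_of_ne (h.le_one i) (hn.2 hi)

end Pool.Agent.H573R3.Fair
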